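import Pool.Agent.H124R3.Apery4

/-!
# The Apéry-limit formula fails for the toric Fano fivefold `P(O ⊕ O(3))` over `ℙ⁴`

`Coh s k` is the cohomology ring of the `ℙ¹`-bundle `X = P(O ⊕ O(k))` over `ℙ^s`, and `Jc s k m` the
coefficient of `t^m` in `e^{-c₁ log t} J_X(t)`, given by Givental's formula
`∑_{c₁·d = m} ∏_ρ ∏_{j ≤ 0} (D_ρ + j) / ∏_{j ≤ D_ρ·d} (D_ρ + j)`,
the product being over the `s + 3` toric divisors (`s + 1` times `h`, then `ξ` and `ξ - k h`).
`X` is Fano exactly when `k ≤ s`.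
-/

set_option autoImplicit false

open Pool.Agent.H124R3.Apery Filter Topology

namespace Pool.Agent.Results.MP_12343a_ag.ToricCounterexample

/-- the Fano index of `P(O ⊕ O(k))` over `ℙ^s`, whose first Chern class is
`(s + 1 - k) h + 2 ξ` -/
def fanoIndex (s k : ℕ) : ℕ := Nat.gcd (s + 1 - k) 2

/-- the Taylor expansion of `Γ(1 + x)` evaluated at the nilpotent class `D` (`dim X = s + 1`) -/
noncomputable def gammaSeries (s k : ℕ) (D : Coh s k) : Coh s k :=
  ∑ j ∈ Finset.range (s + 2), (iteratedDeriv j Complex.Gamma 1 / (j.factorial : ℂ)) • D ^ j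

/-- the Gamma class of the tangent bundle, by the Euler sequence -/
noncomputable def gammaClass (s k : ℕ) : Coh s k :=
  gammaSeries s k (hh s k) ^ (s + 1) * gammaSeries s k (xi s k) * gammaSeries s k (ee s k)

/-- the Apéry-limit formula for `P(O ⊕ O(k))` over `ℙ^s` -/
def AperyLimit (s k : ℕ) : Prop :=
  ∀ α : Coh s k →ₗ[ℂ] ℂ, (∀ x, α (c1 s k * x) = 0) →
    Tendsto (fun n : ℕ => α (Jc s k (fanoIndex s k * n)) / pt s k (Jc s k (fanoIndex s k * n)))
      atTop (𝓝 (α (gammaClass s k)))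

/-- For `X = P(O ⊕ O(3))` over `ℙ⁴` there is a primitive functional `α` whose ratios
`⟨α, J_{2n}⟩ / ⟨pt, J_{2n}⟩` tend to infinity in modulus; in particular the Apéry-limit formula
fails for `X`. -/
theorem result :
    (∃ α : Coh 4 3 →ₗ[ℂ] ℂ, (∀ x, α (c1 4 3 * x) = 0) ∧
      Tendsto (fun n : ℕ =>
        ‖α (Jc 4 3 (fanoIndex 4 3 * n)) / pt 4 3 (Jc 4 3 (fanoIndex 4 3 * n))‖) atTop atTop) ∧
    ¬ AperyLimit 4 3 := by
  have hr : fanoIndex 4 3 = 2 := by decide
  refine ⟨⟨prim, prim_c1, ?_⟩, fun h => ?_⟩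
  · rw [hr]
    exact diverge
  · have h1 := h prim prim_c1
    rw [hr] at h1
    exact not_tendsto_nhds_of_tendsto_atTop diverge _ h1.norm

end Pool.Agent.Results.MP_12343a_ag.ToricCounterexample
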